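import Pool.Agent.H30.SL.Stm

set_option autoImplicit false

namespace Pool.Agent.H40.SL

open Finset Pool.Agent.H30.SL

attribute [local instance 100] LieRing.ofAssociativeRing

lemma br_left {K : Type} [Field K] (A y : Matrix (Fin 3) (Fin 3) K) (s : K) :
    ⁅A - s • (1 : Matrix (Fin 3) (Fin 3) K), y⁆ = ⁅A, y⁆ := by
  rw [LieRing.of_associative_ring_bracket, LieRing.of_associative_ring_bracket, sub_mul, mul_sub,
    smul_mul_assoc, one_mul, mul_smul_comm, mul_one]
  abel

lemma br_right {K : Type} [Field K] (A y : Matrix (Fin 3) (Fin 3) K) (s : K) :
    ⁅A, y - s • (1 : Matrix (Fin 3) (Fin 3) K)⁆ = ⁅A, y⁆ := by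
  rw [LieRing.of_associative_ring_bracket, LieRing.of_associative_ring_bracket, sub_mul, mul_sub,
    smul_mul_assoc, one_mul, mul_smul_comm, mul_one]
  abel

lemma rn_shift {K : Type} [Field K] (A : ℕ → Matrix (Fin 3) (Fin 3) K) (s : ℕ → K) (D : ℕ)
    (w : List ℕ) (hw : w ≠ []) :
    rn (fun i => A i - s i • (1 : Matrix (Fin 3) (Fin 3) K)) w
      (A D - s D • (1 : Matrix (Fin 3) (Fin 3) K)) = rn A w (A D) := by
  induction w with
  | nil => exact absurd rfl hw
  | cons a w ih =>
    show ⁅A a - s a • (1 : Matrix (Fin 3) (Fin 3) K), rn (fun i => A i - s i •
      (1 : Matrix (Fin 3) (Fin 3) K)) w (A D - s D • (1 : Matrix (Fin 3) (Fin 3) K))⁆ =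
      ⁅A a, rn A w (A D)⁆
    rw [br_left]
    by_cases hw' : w = []
    · subst hw'
      show ⁅A a, A D - s D • (1 : Matrix (Fin 3) (Fin 3) K)⁆ = ⁅A a, A D⁆
      rw [br_right]
    · rw [ih hw']

lemma mem_P (D : ℕ) (w : List ℕ) :
    w ∈ (List.range D).permutations.toFinset ↔ w.Perm (List.range D) := by
  rw [List.mem_toFinset, List.mem_permutations]

lemma rn_congr {K : Type} [Field K] (A B : ℕ → Matrix (Fin 3) (Fin 3) K)
    (x : Matrix (Fin 3) (Fin 3) K) (w : List ℕ) (h : ∀ a ∈ w, A a = B a) :
    rn A w x = rn B w x := by
  induction w with
  | nil => rfl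
  | cons a w ih =>
    show ⁅A a, rn A w x⁆ = ⁅B a, rn B w x⁆
    rw [h a (by simp), ih (fun b hb => h b (by simp [hb]))]

theorem t_EXT : S_EXT := by
  intro K _ _ D
  refine ⟨?_, ?_⟩
  · intro hD hP c h w hw
    refine hP c ?_ w hw
    intro A _
    have h1 := h (fun i => A i - ((A i).trace / 3) • (1 : Matrix (Fin 3) (Fin 3) K)) (by
      intro _ i
      show (A i - ((A i).trace / 3) • (1 : Matrix (Fin 3) (Fin 3) K)).trace = 0
      rw [Matrix.trace_sub, Matrix.trace_smul, Matrix.trace_one, Fintype.card_fin, smul_eq_mul]
      have h3 : (3 : K) ≠ 0 := by norm_num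
      push_cast
      field_simp
      ring)
    rw [← h1]
    apply Finset.sum_congr rfl
    intro v hv
    rw [mem_P] at hv
    have hne : v ≠ [] := by
      intro h0
      have := hv.length_eq
      rw [h0, List.length_range] at this
      simp at this
      omega
    congr 1
    exact (rn_shift A (fun i => (A i).trace / 3) D v hne).symm
  · intro hP c h w hw
    let c' : List ℕ → K := fun v => if v.head? = some D then c v.tail else 0
    have hperm : ∀ v : List ℕ, v.Perm (List.range D) → (D :: v).Perm (List.range (D + 1)) := by
      intro v hv
      rw [List.range_succ]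
      exact (List.Perm.cons D hv).trans (List.perm_append_comm (l₁ := [D]) (l₂ := List.range D))
    have hc' := hP c' (by
      intro A hA
      have hB := h (fun j => if j = D then A (D + 1) else A j) (by
        intro ht i
        show (if i = D then A (D + 1) else A i).trace = 0
        split_ifs
        · exact hA ht _
        · exact hA ht _)
      have hs : ∑ v ∈ (List.range (D + 1)).permutations.toFinset, c' v • rn A v (A (D + 1)) =
          ∑ v ∈ ((List.range D).permutations.toFinset).image (fun v => D :: v),
            c' v • rn A v (A (D + 1)) := by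
        symm
        apply Finset.sum_subset
        · intro v hv
          obtain ⟨u, hu, rfl⟩ := Finset.mem_image.1 hv
          rw [mem_P] at hu ⊢
          exact hperm u hu
        · intro v hv hnot
          have h0 : c' v = 0 := by
            show (if v.head? = some D then c v.tail else 0) = 0
            rw [if_neg]
            intro hhead
            apply hnot
            cases v with
            | nil => simp at hhead
            | cons a t =>
              simp only [List.head?_cons, Option.some.injEq] at hhead
              subst hhead
              refine Finset.mem_image.2 ⟨t, ?_, rfl⟩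
              rw [mem_P] at hv ⊢
              have h2 : (a :: t).Perm (a :: List.range a) :=
                hv.trans (by
                  rw [List.range_succ]
                  exact (List.perm_append_comm (l₁ := List.range a) (l₂ := [a])))
              exact (List.perm_cons a).1 h2
          rw [h0, zero_smul]
      rw [hs, Finset.sum_image (by
        intro a _ b _ hab
        exact (List.cons.inj hab).2)]
      have hterm : ∀ v ∈ (List.range D).permutations.toFinset,
          c' (D :: v) • rn A (D :: v) (A (D + 1)) =
          ⁅A D, c v • rn (fun j => if j = D then A (D + 1) else A j) v (A (D + 1))⁆ := by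
        intro v hv
        rw [mem_P] at hv
        have e1 : c' (D :: v) = c v := by
          show (if (D :: v).head? = some D then c (D :: v).tail else 0) = c v
          simp
        have e2 : rn A v (A (D + 1)) =
            rn (fun j => if j = D then A (D + 1) else A j) v (A (D + 1)) := by
          apply rn_congr
          intro a ha
          have : a < D := List.mem_range.1 (hv.mem_iff.1 ha)
          rw [if_neg (by omega)]
        rw [e1, ← e2]
        show c v • ⁅A D, rn A v (A (D + 1))⁆ = ⁅A D, c v • rn A v (A (D + 1))⁆
        rw [LieRing.of_associative_ring_bracket, LieRing.of_associative_ring_bracket,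
          smul_sub, mul_smul_comm, smul_mul_assoc]
      rw [Finset.sum_congr rfl hterm, ← lie_sum]
      have hB' : ∑ v ∈ (List.range D).permutations.toFinset,
          c v • rn (fun j => if j = D then A (D + 1) else A j) v (A (D + 1)) = 0 := by
        have := hB
        simp only [if_true] at this
        exact this
      rw [hB', lie_zero])
    have h3 := hc' (D :: w) (hperm w hw)
    have h4 : c' (D :: w) = c w := by
      show (if (D :: w).head? = some D then c (D :: w).tail else 0) = c w
      simp
    rw [← h4]; exact h3

end Pool.Agent.H40.SL
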